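import Pool.Agent.Helper65.CS.Goals2

/-!
# Project CS, packet PTX: the parts of a step in polynomial time
-/

set_option autoImplicit false

namespace Pool.Agent.Helper48.CS

open Pool.Agent.Helper81.CC Pool.Agent.Helper78.DT Pool.Agent.Helper51.ZP Pool.Agent.Helper65.CS

/-! ### Removing repetitions -/

/-- One step of the computation of `dedup`. -/
def dst (acc : List (ℕ × Bool)) (v : ℕ × Bool) : List (ℕ × Bool) :=
  if v ∈ acc then acc else v :: acc

theorem dedup_eq (l : List (ℕ × Bool)) : l.reverse.foldl dst [] = l.dedup := by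
  induction l with
  | nil => rfl
  | cons v l ih =>
    rw [List.reverse_cons, List.foldl_append, ih]
    simp only [List.foldl_cons, List.foldl_nil]
    unfold dst
    by_cases h : v ∈ l
    · rw [if_pos (List.mem_dedup.2 h), List.dedup_cons_of_mem h]
    · rw [if_neg (fun h' => h (List.mem_dedup.1 h')), List.dedup_cons_of_notMem h]

theorem pt_dedup {γ : Type} [ToData γ] {l : γ → List (ℕ × Bool)} (hl : PolyTime l) :
    PolyTime fun c => (l c).dedup := by
  have h1 : PolyTime fun c => (l c).reverse.foldl dst [] := by
    refine PolyTime.foldl_add (s0 := fun _ : γ => ([] : List (ℕ × Bool)))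
      (step := fun _ acc v => dst acc v)
      (PolyTime.reverse hl) (by fun_prop) ?_ (C := fun c => sz (l c) + 1)
      (hl.bd.add (PBd.const 1)) ?_
    · unfold dst
      exact PolyTime.itep (PolyTime.decide_mem (by fun_prop) (by fun_prop)) (by fun_prop)
        (by fun_prop)
    · intro c s v hv
      have h2 : sz v ≤ sz (l c) := sz_le_of_mem (List.mem_reverse.1 hv)
      change sz (dst s v) ≤ _
      unfold dst
      split_ifs with h
      · omega
      · rw [sz_cons]
        omega
  exact PolyTime.congr h1 fun c => dedup_eq _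

/-! ### The chosen literals -/

theorem sum_map_range (f : ℕ → ℕ) (n : ℕ) :
    ((List.range n).map f).sum = ∑ i ∈ Finset.range n, f i := by
  induction n with
  | zero => simp
  | succ n ih => rw [List.range_succ, List.map_append, List.sum_append, Finset.sum_range_succ, ih]; simp

section

variable {α : Type} [ToData α]

theorem pt_pow (h : PtlStmt) {B b : α → ℕ} (hB : PolyTime B) (hb : PolyTime b)
    (hle : ∀ a, 2 ^ b a ≤ B a) : PolyTime fun a => 2 ^ b a :=
  (h α B b b hB hb hb).2.2.2.2 hle

theorem pt_nb (h : PtlStmt) {B b : α → ℕ} {r : α → List Bool} (hB : PolyTime B) (hb : PolyTime b)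
    (hr : PolyTime r) (hle : ∀ a, 2 ^ b a ≤ B a) :
    PolyTime fun z : α × ℕ => nb (b z.1) (fun i => (r z.1).getD i false) z.2 := by
  have h1 : PolyTime fun z : (α × ℕ) × ℕ => 2 ^ (min z.2 (b z.1.1)) :=
    pt_pow h (B := fun z : (α × ℕ) × ℕ => B z.1.1) (by fun_prop) (by fun_prop) fun z =>
      (Nat.pow_le_pow_right (by norm_num) (min_le_right _ _)).trans (hle z.1.1)
  have h2 : PolyTime fun z : α × ℕ => ((List.range (b z.1)).map fun i =>
      if (r z.1).getD (z.2 * b z.1 + i) false = true then 2 ^ (min i (b z.1)) else 0).sum := by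
    refine PolyTime.sum (PolyTime.list_map (f := fun (z : α × ℕ) i =>
      if (r z.1).getD (z.2 * b z.1 + i) false = true then 2 ^ (min i (b z.1)) else 0)
      (by fun_prop) ?_)
    refine PolyTime.ite ?_ h1 (by fun_prop)
    exact PolyTime.getD (by fun_prop) (by fun_prop) (by fun_prop)
  refine PolyTime.congr h2 fun z => ?_
  rw [sum_map_range]
  unfold nb
  refine Finset.sum_congr rfl fun i hi => ?_
  rw [min_eq_left (Finset.mem_range.1 hi).le]

theorem pt_ex (h : PtlStmt) {B b : α → ℕ} {A : α → List ℕ} {r y : α → List Bool}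
    (hB : PolyTime B) (hb : PolyTime b) (hA : PolyTime A) (hr : PolyTime r) (hy : PolyTime y)
    (hle : ∀ a, 2 ^ b a ≤ B a) : PolyTime fun a => ex (A a) (b a) (r a) (y a) := by
  have hP := pt_pow h hB hb hle
  have hP' : PolyTime fun z : α × ℕ => 2 ^ b z.1 :=
    PolyTime.comp (g := fun a => 2 ^ b a) hP (by fun_prop)
  have hn := pt_nb h hB hb hr hle
  unfold ex
  refine PolyTime.list_map (f := fun a j =>
    ((A a).getD (pk (b a) (fun i => (r a).getD i false) j) 0, (y a).getD j false)) ?_ ?_
  · exact PolyTime.range (PolyTime.div (by fun_prop) hP)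
  · refine PolyTime.pair ?_ ?_
    · refine PolyTime.getD (by fun_prop) ?_ (by fun_prop)
      unfold pk
      exact PolyTime.add (PolyTime.mul (by fun_prop) hP') hn
    · exact PolyTime.getD (by fun_prop) (by fun_prop) (by fun_prop)

/-! ### The free variables, restriction, normalization, value -/

theorem pt_al {n : α → ℕ} {s : α → List (ℕ × Bool)} (hn : PolyTime n) (hs : PolyTime s) :
    PolyTime fun a => al (n a) (s a) := by
  unfold al
  refine PolyTime.filter (f := fun a v => !(s a).contains (v, true) && !(s a).contains (v, false))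
    (by fun_prop) ?_
  exact PolyTime.and (PolyTime.not (PolyTime.contains (by fun_prop) (by fun_prop)))
    (PolyTime.not (PolyTime.contains (by fun_prop) (by fun_prop)))

theorem pt_asg {n : α → ℕ} {s : α → List (ℕ × Bool)} (hn : PolyTime n) (hs : PolyTime s) :
    PolyTime fun a => asg (n a) (s a) := by
  unfold asg
  refine PolyTime.list_map (f := fun a v => (s a).contains (v, true)) (by fun_prop) ?_
  exact PolyTime.contains (by fun_prop) (by fun_prop)

theorem pt_rst {s : α → List (ℕ × Bool)} {F : α → DList} (hs : PolyTime s) (hF : PolyTime F) :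
    PolyTime fun a => rst (s a) (F a) := by
  unfold rst
  refine PolyTime.list_map (f := fun a (e : List (ℕ × Bool) × Bool) =>
    (e.1.filter fun p => !(s a).contains p, e.2)) ?_ ?_
  · refine PolyTime.filter (f := fun a (e : List (ℕ × Bool) × Bool) =>
      e.1.all fun p => !(s a).contains (p.1, !p.2)) hF ?_
    refine PolyTime.all (l := fun z : α × (List (ℕ × Bool) × Bool) => z.2.1)
      (f := fun z p => !(s z.1).contains (p.1, !p.2)) (by fun_prop) ?_
    exact PolyTime.not (PolyTime.contains (by fun_prop) (by fun_prop))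
  · refine PolyTime.pair ?_ (by fun_prop)
    refine PolyTime.filter (l := fun z : α × (List (ℕ × Bool) × Bool) => z.2.1)
      (f := fun z p => !(s z.1).contains p) (by fun_prop) ?_
    exact PolyTime.not (PolyTime.contains (by fun_prop) (by fun_prop))

theorem pt_cln {n : α → ℕ} {T : α → List (ℕ × Bool)} (hn : PolyTime n) (hT : PolyTime T) :
    PolyTime fun a => cln (n a) (T a) := by
  unfold cln
  refine pt_dedup (PolyTime.filter (f := fun a (p : ℕ × Bool) => decide (p.1 < n a) || p.2) hT ?_)
  exact PolyTime.or (PolyTime.decide_lt (by fun_prop) (by fun_prop)) (by fun_prop)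

theorem pt_nrm {n W : α → ℕ} {F : α → DList} (hn : PolyTime n) (hW : PolyTime W)
    (hF : PolyTime F) : PolyTime fun a => nrm (n a) (W a) (F a) := by
  have hc : PolyTime fun z : α × (List (ℕ × Bool) × Bool) => cln (n z.1) z.2.1 :=
    pt_cln (by fun_prop) (by fun_prop)
  unfold nrm
  refine PolyTime.filterMap (f := fun a (e : List (ℕ × Bool) × Bool) =>
    if (cln (n a) e.1).all (fun p => decide (p.1 < n a) && !(cln (n a) e.1).contains (p.1, !p.2))
      then (if (cln (n a) e.1).length ≤ W a then some (cln (n a) e.1, e.2)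
        else if e.2 then none else some ((cln (n a) e.1).take (W a), false))
    else none) hF ?_
  refine PolyTime.ite ?_ ?_ (PolyTime.const _)
  · refine PolyTime.all (l := fun z : α × (List (ℕ × Bool) × Bool) => cln (n z.1) z.2.1)
      (f := fun z p => decide (p.1 < n z.1) && !(cln (n z.1) z.2.1).contains (p.1, !p.2)) hc ?_
    have hc' : PolyTime fun z : (α × (List (ℕ × Bool) × Bool)) × (ℕ × Bool) =>
        cln (n z.1.1) z.1.2.1 :=
      PolyTime.comp (g := fun z : α × (List (ℕ × Bool) × Bool) => cln (n z.1) z.2.1) hc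
        (by fun_prop)
    exact PolyTime.and (PolyTime.decide_lt (by fun_prop) (by fun_prop))
      (PolyTime.not (PolyTime.contains (by fun_prop) hc'))
  · refine PolyTime.itep (PolyTime.decide_le (PolyTime.length hc) (by fun_prop))
      (PolyTime.some (PolyTime.pair hc (by fun_prop))) ?_
    exact PolyTime.ite (by fun_prop) (PolyTime.const _)
      (PolyTime.some (PolyTime.pair (PolyTime.take (by fun_prop) hc) (by fun_prop)))

theorem pt_vl {r : α → List Bool} {F : α → DList} (hr : PolyTime r) (hF : PolyTime F) :
    PolyTime fun a => vl (r a) (F a) := by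
  have hf : PolyTime fun a => (F a).find? fun e =>
      e.1.all fun p => decide ((r a).getD p.1 false = p.2) := by
    refine PolyTime.find? (f := fun a (e : List (ℕ × Bool) × Bool) =>
      e.1.all fun p => decide ((r a).getD p.1 false = p.2)) hF ?_
    refine PolyTime.all (l := fun z : α × (List (ℕ × Bool) × Bool) => z.2.1)
      (f := fun z p => decide ((r z.1).getD p.1 false = p.2)) (by fun_prop) ?_
    exact PolyTime.decide_eq (PolyTime.getD (by fun_prop) (by fun_prop) (by fun_prop))
      (by fun_prop)
  have hg : PolyTime fun a => ((F a).find? fun e =>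
      e.1.all fun p => decide ((r a).getD p.1 false = p.2)).elim false fun e => e.2 :=
    PolyTime.option_elim (g := fun _ (e : List (ℕ × Bool) × Bool) => e.2) hf (by fun_prop)
      (by fun_prop)
  refine PolyTime.congr hg fun a => ?_
  unfold vl
  cases (F a).find? fun e => e.1.all fun p => decide ((r a).getD p.1 false = p.2) <;> rfl

end

theorem ptx (h : PtlStmt) : PtxStmt := by
  intro α _
  exact ⟨fun B b A r y hB hb hA hr hy hle => pt_ex h hB hb hA hr hy hle,
    fun n s hn hs => ⟨pt_al hn hs, pt_asg hn hs⟩,
    fun n W s F hn hW hs hF => ⟨pt_rst hs hF, pt_nrm hn hW hF⟩,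
    fun r F hr hF => pt_vl hr hF⟩

end Pool.Agent.Helper48.CS
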